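import Mathlib

set_option autoImplicit false

namespace Pool.Agent.E8helper87.TW

open Module Filter Topology

theorem semi (E : Type) [NormedAddCommGroup E] [NormedSpace ℂ E] [FiniteDimensional ℂ E]
    (S : ℕ → Submodule ℂ E) (s : ℕ) (hS : ∀ k, finrank ℂ (S k) = s) (S' : Submodule ℂ E)
    (h : ∀ a ∈ S', ∃ A : ℕ → E, (∀ k, A k ∈ S k) ∧ Tendsto A atTop (𝓝 a)) : finrank ℂ S' ≤ s := by
  classical
  set r := finrank ℂ S' with hr
  let b : Basis (Fin r) ℂ S' := finBasis ℂ S'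
  choose! A hA hlim using h
  have hlin : LinearIndependent ℂ (fun i : Fin r => ((b i : S') : E)) :=
    b.linearIndependent.map' S'.subtype (by simp)
  have ht : Tendsto (fun k => (fun i : Fin r => A ((b i : S') : E) k)) atTop
      (𝓝 (fun i : Fin r => ((b i : S') : E))) := by
    rw [tendsto_pi_nhds]
    intro i
    exact hlim _ (b i).2
  have hopen : IsOpen {f : Fin r → E | LinearIndependent ℂ f} := isOpen_setOfPred_linearIndependent
  have hev := ht.eventually (hopen.mem_nhds hlin)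
  obtain ⟨k, hk⟩ := hev.exists
  have hk' : LinearIndependent ℂ (fun i : Fin r => A ((b i : S') : E) k) := hk
  have h2 : LinearIndependent ℂ (fun i : Fin r => (⟨A ((b i : S') : E) k, hA _ (b i).2 k⟩ : S k)) := by
    apply LinearIndependent.of_comp (S k).subtype
    exact hk'
  have := h2.fintype_card_le_finrank
  rw [Fintype.card_fin, hS k] at this
  exact this

open scoped InnerProductSpace in
theorem conv_inner (N : ℕ) (S : ℕ → Submodule ℂ (EuclideanSpace ℂ (Fin N)))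
    (S' : Submodule ℂ (EuclideanSpace ℂ (Fin N))) (hS : ∀ k, finrank ℂ (S k) = finrank ℂ S')
    (hcl : ∀ φ : ℕ → ℕ, StrictMono φ → ∀ A : ℕ → EuclideanSpace ℂ (Fin N), (∀ k, A k ∈ S (φ k)) →
      ∀ a, Tendsto A atTop (𝓝 a) → a ∈ S') :
    ∀ a ∈ S', ∃ A : ℕ → EuclideanSpace ℂ (Fin N), (∀ k, A k ∈ S k) ∧ Tendsto A atTop (𝓝 a) := by
  classical
  intro a ha
  refine ⟨fun k => ((S k).orthogonalProjectionOnto a : EuclideanSpace ℂ (Fin N)),
    fun k => Submodule.coe_mem _, ?_⟩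
  apply tendsto_of_subseq_tendsto
  intro ns hns
  obtain ⟨φ, hφ, hφ2⟩ := Filter.strictMono_subseq_of_tendsto_atTop hns
  set s := finrank ℂ S' with hs
  have e : ∀ k : ℕ, Nonempty (OrthonormalBasis (Fin s) ℂ (S k)) := fun k =>
    ⟨(stdOrthonormalBasis ℂ (S k)).reindex (finCongr (hS k))⟩
  let e' : ∀ k : ℕ, OrthonormalBasis (Fin s) ℂ (S k) := fun k => (e k).some
  let t : ℕ → (Fin s → EuclideanSpace ℂ (Fin N)) := fun k i => ((e' (ns (φ k)) i : S (ns (φ k))) : EuclideanSpace ℂ (Fin N))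
  have hbd : ∀ k, t k ∈ Metric.closedBall (0 : Fin s → EuclideanSpace ℂ (Fin N)) 1 := by
    intro k
    rw [mem_closedBall_zero_iff, pi_norm_le_iff_of_nonneg zero_le_one]
    intro i
    have := (e' (ns (φ k))).orthonormal.1 i
    exact this.le
  obtain ⟨e0, -, ψ, hψ, hlim⟩ := (isCompact_closedBall (0 : Fin s → EuclideanSpace ℂ (Fin N)) 1).tendsto_subseq hbd
  have hlim' : ∀ i, Tendsto (fun k => t (ψ k) i) atTop (𝓝 (e0 i)) := fun i =>
    (tendsto_pi_nhds.1 hlim) i
  have hmem : ∀ i, e0 i ∈ S' := by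
    intro i
    refine hcl (fun k => ns (φ (ψ k))) (hφ2.comp hψ) (fun k => t (ψ k) i) (fun k => ?_) (e0 i) (hlim' i)
    exact Submodule.coe_mem _
  have horth : Orthonormal ℂ e0 := by
    rw [orthonormal_iff_ite]
    intro i j
    have h1 : Tendsto (fun k => ⟪t (ψ k) i, t (ψ k) j⟫_ℂ) atTop (𝓝 ⟪e0 i, e0 j⟫_ℂ) :=
      (hlim' i).inner (hlim' j)
    have h2 : ∀ k, ⟪t (ψ k) i, t (ψ k) j⟫_ℂ = if i = j then 1 else 0 := by
      intro k
      have := (orthonormal_iff_ite.1 (e' (ns (φ (ψ k)))).orthonormal) i j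
      rw [Submodule.coe_inner] at this
      exact this
    simp_rw [h2] at h1
    exact (tendsto_nhds_unique h1 tendsto_const_nhds)
  -- e0 is an orthonormal basis of S'
  have horth' : Orthonormal ℂ (fun i : Fin s => (⟨e0 i, hmem i⟩ : S')) := by
    rw [orthonormal_iff_ite] at horth ⊢
    intro i j
    rw [Submodule.coe_inner]
    exact horth i j
  have hcard : Fintype.card (Fin s) = finrank ℂ S' := by rw [Fintype.card_fin]
  let b0 : Basis (Fin s) ℂ S' :=
    basisOfLinearIndependentOfCardEqFinrank' _ horth'.linearIndependent hcard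
  have hb0 : (b0 : Fin s → S') = fun i : Fin s => (⟨e0 i, hmem i⟩ : S') :=
    coe_basisOfLinearIndependentOfCardEqFinrank' _ horth'.linearIndependent hcard
  let ob : OrthonormalBasis (Fin s) ℂ S' := b0.toOrthonormalBasis (by rw [hb0]; exact horth')
  have hob : ∀ i, ((ob i : S') : EuclideanSpace ℂ (Fin N)) = e0 i := by
    intro i
    have : (ob : Fin s → S') = b0 := Basis.coe_toOrthonormalBasis _ _
    rw [this, hb0]
  have hsum : a = ∑ i, ⟪e0 i, a⟫_ℂ • e0 i := by
    have h1 := congrArg (fun z : S' => (z : EuclideanSpace ℂ (Fin N))) (ob.sum_repr' (⟨a, ha⟩ : S'))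
    simp only [Submodule.coe_sum, Submodule.coe_smul, Submodule.coe_inner, hob] at h1
    exact h1.symm
  refine ⟨fun k => φ (ψ k), ?_⟩
  have h3 : ∀ k, (((S (ns (φ (ψ k)))).orthogonalProjectionOnto a : S (ns (φ (ψ k)))) : EuclideanSpace ℂ (Fin N)) =
      ∑ i, ⟪t (ψ k) i, a⟫_ℂ • t (ψ k) i := by
    intro k
    rw [(e' (ns (φ (ψ k)))).orthogonalProjectionOnto_apply_eq_sum a, Submodule.coe_sum]
    refine Finset.sum_congr rfl fun i _ => ?_
    rw [Submodule.coe_smul]
  simp_rw [h3]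
  conv => rhs; rw [hsum]
  refine tendsto_finsetSum _ fun i _ => ?_
  exact ((hlim' i).inner tendsto_const_nhds).smul (hlim' i)

theorem conv (E : Type) [NormedAddCommGroup E] [NormedSpace ℂ E] [FiniteDimensional ℂ E]
    (S : ℕ → Submodule ℂ E) (S' : Submodule ℂ E) (hS : ∀ k, finrank ℂ (S k) = finrank ℂ S')
    (hcl : ∀ φ : ℕ → ℕ, StrictMono φ → ∀ A : ℕ → E, (∀ k, A k ∈ S (φ k)) →
      ∀ a, Tendsto A atTop (𝓝 a) → a ∈ S') :
    ∀ a ∈ S', ∃ A : ℕ → E, (∀ k, A k ∈ S k) ∧ Tendsto A atTop (𝓝 a) := by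
  let L : E ≃L[ℂ] EuclideanSpace ℂ (Fin (finrank ℂ E)) :=
    ContinuousLinearEquiv.ofFinrankEq (by simp)
  intro a ha
  have key := conv_inner (finrank ℂ E) (fun k => (S k).map (L.toLinearEquiv : E →ₗ[ℂ] _)) (S'.map (L.toLinearEquiv : E →ₗ[ℂ] _))
    (fun k => by
      rw [LinearEquiv.finrank_map_eq L.toLinearEquiv (S k), LinearEquiv.finrank_map_eq L.toLinearEquiv S', hS k]) ?_ (L a) ⟨a, ha, rfl⟩
  · obtain ⟨A, hA, hA2⟩ := key
    refine ⟨fun k => L.symm (A k), fun k => ?_, ?_⟩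
    · obtain ⟨y, hy, hy2⟩ := hA k
      show L.symm (A k) ∈ S k
      rw [← hy2]
      simpa using hy
    · have := (L.symm.continuous.tendsto (L a)).comp hA2
      simpa [Function.comp_def] using this
  · intro φ hφ A hA b hb
    have h1 : Tendsto (fun k => L.symm (A k)) atTop (𝓝 (L.symm b)) :=
      (L.symm.continuous.tendsto b).comp hb
    have h2 := hcl φ hφ (fun k => L.symm (A k)) (fun k => by
      obtain ⟨y, hy, hy2⟩ := hA k
      show L.symm (A k) ∈ S (φ k)
      rw [← hy2]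
      simpa using hy) (L.symm b) h1
    exact ⟨L.symm b, h2, by simp⟩

end Pool.Agent.E8helper87.TW
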