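import Pool.Agent.E8helper1.TW.Stm
import Pool.Agent.E8helper87.TW.Conv0

set_option autoImplicit false

namespace Pool.Agent.E8helper87.TW

/-- Piece CONV. -/
theorem t_CONV : Pool.Agent.E8helper1.TW.S_CONV := fun E _ _ _ S S' hS hcl => conv E S S' hS hcl

/-- Piece SEMI. -/
theorem t_SEMI : Pool.Agent.E8helper1.TW.S_SEMI := fun E _ _ _ S s hS S' h => semi E S s hS S' h

end Pool.Agent.E8helper87.TW
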