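import Mathlib

set_option autoImplicit false

namespace Pool.Agent.E8helper87.TW

open Matrix Module

attribute [local instance 100] LieRing.ofAssociativeRing

/-- A perfect Lie algebra of endomorphisms with trivial trace form is zero. -/
theorem cartan_zero {M : Type*} [AddCommGroup M] [Module ℂ M] [FiniteDimensional ℂ M]
    (K : LieSubalgebra ℂ (Module.End ℂ M))
    (htr : ∀ a ∈ K, ∀ b ∈ K, LinearMap.trace ℂ M (a * b) = 0)
    (hperf : ∀ a ∈ K, a ∈ Submodule.span ℂ {y : Module.End ℂ M | ∃ u ∈ K, ∃ v ∈ K, y = ⁅u, v⁆}) :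
    ∀ a ∈ K, a = 0 := by
  have h0 : LieModule.traceForm ℂ K M = 0 := by
    ext a b
    rw [LieModule.traceForm_apply_apply]
    exact htr a a.2 b b.2
  have h1 : LieModule.IsNilpotent (LieAlgebra.derivedSeries ℂ K 1) M :=
    LieModule.isNilpotent_derivedSeries_of_traceForm_eq_zero h0
  have h2 : ⁅(⊤ : LieIdeal ℂ K), (⊤ : LieIdeal ℂ K)⁆ = ⊤ := by
    rw [eq_top_iff]
    intro a _
    have h3 : Submodule.span ℂ {y : Module.End ℂ M | ∃ u ∈ K, ∃ v ∈ K, y = ⁅u, v⁆} ≤
        (⁅(⊤ : LieIdeal ℂ K), (⊤ : LieIdeal ℂ K)⁆ : LieIdeal ℂ K).toSubmodule.map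
          (K.toSubmodule.subtype) := by
      rw [Submodule.span_le]
      rintro y ⟨u, hu, v, hv, rfl⟩
      exact ⟨⁅(⟨u, hu⟩ : K), (⟨v, hv⟩ : K)⁆,
        LieSubmodule.lie_mem_lie (LieSubmodule.mem_top _) (LieSubmodule.mem_top _), rfl⟩
    obtain ⟨b, hb, hb2⟩ := h3 (hperf a a.2)
    have : b = a := Subtype.ext hb2
    rw [← this]
    exact hb
  have h3 : ∀ k, LieAlgebra.derivedSeries ℂ K k = ⊤ := by
    intro k
    induction k with
    | zero => rfl
    | succ k ih =>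
      rw [LieAlgebra.derivedSeries_def, LieAlgebra.derivedSeriesOfIdeal_succ,
        ← LieAlgebra.derivedSeries_def, ih, h2]
  have h4 : ∀ x : K, IsNilpotent (x : Module.End ℂ M) := by
    intro x
    have hx : x ∈ LieAlgebra.derivedSeries ℂ K 1 := by
      rw [h3 1]
      exact LieSubmodule.mem_top _
    exact (LieModule.isNilpotent_iff_forall' (R := ℂ)).mp h1 ⟨x, hx⟩
  have h5 : LieRing.IsNilpotent K := by
    rw [LieAlgebra.isNilpotent_iff_forall (R := ℂ)]
    intro x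
    exact LieAlgebra.isNilpotent_ad_of_isNilpotent (h4 x)
  obtain ⟨k, hk⟩ := LieAlgebra.IsSolvable.solvable ℂ K
  rw [h3 k] at hk
  intro a ha
  have : (⟨a, ha⟩ : K) ∈ (⊤ : LieIdeal ℂ K) := LieSubmodule.mem_top _
  rw [hk, LieSubmodule.mem_bot] at this
  exact congrArg Subtype.val this

theorem cartan_zero_mat (N : Type) [Fintype N] [DecidableEq N] (V : Submodule ℂ (Matrix N N ℂ))
    (hlie : ∀ a ∈ V, ∀ b ∈ V, a * b - b * a ∈ V)
    (htr : ∀ a ∈ V, ∀ b ∈ V, (a * b).trace = 0)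
    (hperf : ∀ a ∈ V, a ∈ Submodule.span ℂ {y | ∃ u ∈ V, ∃ v ∈ V, y = u * v - v * u}) :
    ∀ a ∈ V, a = 0 := by
  let K : LieSubalgebra ℂ (Module.End ℂ (N → ℂ)) :=
    { V.comap (Matrix.toLinAlgEquiv' (R := ℂ) (n := N)).symm.toLinearMap with
      lie_mem' := by
        intro x y hx hy
        have := hlie _ hx _ hy
        change (Matrix.toLinAlgEquiv' (R := ℂ) (n := N)).symm ⁅x, y⁆ ∈ V
        rw [Ring.lie_def, map_sub, map_mul, map_mul]
        exact this }
  have hK : ∀ a, a ∈ K ↔ (Matrix.toLinAlgEquiv' (R := ℂ) (n := N)).symm a ∈ V := fun a => Iff.rfl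
  have key := cartan_zero K ?_ ?_
  · intro a ha
    have h1 : Matrix.toLinAlgEquiv' a ∈ K := by
      rw [hK]
      simpa using ha
    have h2 := key _ h1
    simpa using h2
  · intro a ha b hb
    have h1 := htr _ ((hK a).1 ha) _ ((hK b).1 hb)
    rw [← map_mul] at h1
    rw [← h1]
    have h2 : a * b = Matrix.toLin' ((Matrix.toLinAlgEquiv' (R := ℂ) (n := N)).symm (a * b)) := by
      have := (Matrix.toLinAlgEquiv' (R := ℂ) (n := N)).apply_symm_apply (a * b)
      exact this.symm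
    conv_lhs => rw [h2]
    exact Matrix.trace_toLin'_eq _
  · intro a ha
    have h1 := hperf _ ((hK a).1 ha)
    have h2 : Submodule.span ℂ {y | ∃ u ∈ V, ∃ v ∈ V, y = u * v - v * u} ≤
        (Submodule.span ℂ {y : Module.End ℂ (N → ℂ) | ∃ u ∈ K, ∃ v ∈ K, y = ⁅u, v⁆}).comap
          (Matrix.toLinAlgEquiv' (R := ℂ) (n := N)).toLinearMap := by
      rw [Submodule.span_le]
      rintro y ⟨u, hu, v, hv, rfl⟩
      refine Submodule.subset_span ⟨Matrix.toLinAlgEquiv' u, ?_, Matrix.toLinAlgEquiv' v, ?_, ?_⟩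
      · rw [hK]; simpa using hu
      · rw [hK]; simpa using hv
      · rw [Ring.lie_def, ← map_mul, ← map_mul, ← map_sub]
        rfl
    have h3 := h2 h1
    simpa using h3

end Pool.Agent.E8helper87.TW
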