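import Mathlib
import Pool.Agent.E8helper87.TW.Nil0

set_option autoImplicit false

namespace Pool.Agent.E8helper87.TW

open Matrix Module

variable {n : Type} [Fintype n] [DecidableEq n]

omit [DecidableEq n] in
/-- A nilpotent endomorphism in the centroid of a Lie algebra without abelian ideals is zero. -/
theorem cent_zero (U : Submodule ℂ (Matrix n n ℂ)) (hlie : ∀ u ∈ U, ∀ v ∈ U, u * v - v * u ∈ U)
    (noab : ∀ J : Submodule ℂ (Matrix n n ℂ), J ≤ U → (∀ u ∈ U, ∀ j ∈ J, u * j - j * u ∈ J) →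
      (∀ i ∈ J, ∀ j ∈ J, i * j = j * i) → J = ⊥)
    (T : U →ₗ[ℂ] U)
    (hT : ∀ u v : U, ((T ⟨u.1 * v.1 - v.1 * u.1, hlie _ u.2 _ v.2⟩ : U) : Matrix n n ℂ) =
      (T u).1 * v.1 - v.1 * (T u).1)
    (hnil : IsNilpotent T) : T = 0 := by
  classical
  have hTp : ∀ (m : ℕ) (u v : U), (((T ^ m) ⟨u.1 * v.1 - v.1 * u.1, hlie _ u.2 _ v.2⟩ : U) :
      Matrix n n ℂ) = ((T ^ m) u).1 * v.1 - v.1 * ((T ^ m) u).1 := by
    intro m
    induction m with
    | zero => intro u v; rfl
    | succ m ih =>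
      intro u v
      rw [pow_succ, Module.End.mul_apply, Module.End.mul_apply]
      have h1 : T ⟨u.1 * v.1 - v.1 * u.1, hlie _ u.2 _ v.2⟩ =
          ⟨(T u).1 * v.1 - v.1 * (T u).1, hlie _ (T u).2 _ v.2⟩ := Subtype.ext (hT u v)
      rw [h1]
      exact ih (T u) v
  have hTq : ∀ (m : ℕ) (u v : U), (((T ^ m) ⟨u.1 * v.1 - v.1 * u.1, hlie _ u.2 _ v.2⟩ : U) :
      Matrix n n ℂ) = u.1 * ((T ^ m) v).1 - ((T ^ m) v).1 * u.1 := by
    intro m u v
    have h1 := hTp m v u
    have h2 : (⟨u.1 * v.1 - v.1 * u.1, hlie _ u.2 _ v.2⟩ : U) =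
        -⟨v.1 * u.1 - u.1 * v.1, hlie _ v.2 _ u.2⟩ := by
      apply Subtype.ext
      simp
    rw [h2, map_neg, Submodule.coe_neg, h1, neg_sub]
  by_contra hne
  obtain ⟨k0, hk0⟩ := hnil
  have hex : ∃ k, T ^ k = 0 := ⟨k0, hk0⟩
  set k := Nat.find hex with hk
  have hkz : T ^ k = 0 := Nat.find_spec hex
  have hk2 : 2 ≤ k := by
    by_contra hlt
    push Not at hlt
    interval_cases h : k
    · apply hne
      rw [pow_zero] at hkz
      calc T = 1 * T := (one_mul T).symm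
        _ = 0 := by rw [hkz, zero_mul]
    · rw [pow_one] at hkz
      exact hne hkz
  have hS : T ^ (k - 1) ≠ 0 := Nat.find_min hex (by omega)
  have hSS : ∀ u, (T ^ (k - 1)) ((T ^ (k - 1)) u) = 0 := by
    intro u
    rw [← Module.End.mul_apply, ← pow_add]
    have : k - 1 + (k - 1) = k + (k - 2) := by omega
    rw [this, pow_add, hkz, zero_mul]
    rfl
  have hJ := noab ((LinearMap.range (T ^ (k - 1))).map U.subtype) ?_ ?_ ?_
  · apply hS
    ext1 u
    apply Subtype.ext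
    have : (((T ^ (k - 1)) u : U) : Matrix n n ℂ) ∈ (LinearMap.range (T ^ (k - 1))).map U.subtype :=
      ⟨_, ⟨u, rfl⟩, rfl⟩
    rw [hJ, Submodule.mem_bot] at this
    rw [this]
    rfl
  · rintro _ ⟨y, _, rfl⟩
    exact y.2
  · rintro u hu _ ⟨_, ⟨v, rfl⟩, rfl⟩
    exact ⟨_, ⟨⟨u * v.1 - v.1 * u, hlie _ hu _ v.2⟩, rfl⟩, hTq (k - 1) ⟨u, hu⟩ v⟩
  · rintro _ ⟨_, ⟨u, rfl⟩, rfl⟩ _ ⟨_, ⟨v, rfl⟩, rfl⟩
    have h1 := hTp (k - 1) u ((T ^ (k - 1)) v)
    have h2 : (⟨u.1 * ((T ^ (k - 1)) v).1 - ((T ^ (k - 1)) v).1 * u.1,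
        hlie _ u.2 _ ((T ^ (k - 1)) v).2⟩ : U) =
        (T ^ (k - 1)) ⟨u.1 * v.1 - v.1 * u.1, hlie _ u.2 _ v.2⟩ :=
      Subtype.ext (hTq (k - 1) u v).symm
    rw [h2, hSS] at h1
    exact (sub_eq_zero.1 h1.symm)

theorem nil_main (d : ℕ) (x : Fin d → Matrix n n ℂ)
    (hx : LinearIndependent ℂ x)
    (hlie : ∀ u ∈ Submodule.span ℂ (Set.range x), ∀ v ∈ Submodule.span ℂ (Set.range x),
      u * v - v * u ∈ Submodule.span ℂ (Set.range x))
    (nondeg : ∀ u ∈ Submodule.span ℂ (Set.range x),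
      (∀ v ∈ Submodule.span ℂ (Set.range x), (u * v).trace = 0) → u = 0)
    (perf : Submodule.span ℂ (Set.range x) ≤
      Submodule.span ℂ {y | ∃ u ∈ Submodule.span ℂ (Set.range x),
        ∃ v ∈ Submodule.span ℂ (Set.range x), y = u * v - v * u})
    (noab : ∀ J : Submodule ℂ (Matrix n n ℂ), J ≤ Submodule.span ℂ (Set.range x) →
      (∀ u ∈ Submodule.span ℂ (Set.range x), ∀ j ∈ J, u * j - j * u ∈ J) →
      (∀ i ∈ J, ∀ j ∈ J, i * j = j * i) → J = ⊥)
    (N : Type) [Fintype N] [DecidableEq N] (r : Matrix n n ℂ →ₗ[ℂ] Matrix N N ℂ)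
    (hr : ∀ i j, r (x i * x j - x j * x i) = r (x i) * r (x j) - r (x j) * r (x i))
    (hnil : IsNilpotent ((Matrix.of fun i j => (x i * x j).trace)⁻¹ *
      (Matrix.of fun i j => (r (x i) * r (x j)).trace))) :
    ∀ i, r (x i) = 0 := by
  classical
  set U := Submodule.span ℂ (Set.range x) with hU
  -- `r` is a homomorphism on `U`
  have hr1 : ∀ i, ∀ v ∈ U, r (x i * v - v * x i) = r (x i) * r v - r v * r (x i) := by
    intro i v hv
    induction hv using Submodule.span_induction with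
    | mem v hv => obtain ⟨j, rfl⟩ := hv; exact hr i j
    | zero => simp
    | add v w _ _ hv hw =>
      have : x i * (v + w) - (v + w) * x i = (x i * v - v * x i) + (x i * w - w * x i) := by
        rw [mul_add, add_mul]; abel
      rw [this, map_add, hv, hw, map_add, mul_add, add_mul]
      abel
    | smul c v _ hv =>
      have : x i * (c • v) - (c • v) * x i = c • (x i * v - v * x i) := by
        rw [Matrix.mul_smul, Matrix.smul_mul, smul_sub]
      rw [this, map_smul, hv, map_smul, Matrix.mul_smul, Matrix.smul_mul, smul_sub]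
  have hr2 : ∀ u ∈ U, ∀ v ∈ U, r (u * v - v * u) = r u * r v - r v * r u := by
    intro u hu v hv
    induction hu using Submodule.span_induction with
    | mem u hu => obtain ⟨j, rfl⟩ := hu; exact hr1 j v hv
    | zero => simp
    | add u w _ _ hu hw =>
      have : (u + w) * v - v * (u + w) = (u * v - v * u) + (w * v - v * w) := by
        rw [mul_add, add_mul]; abel
      rw [this, map_add, hu, hw, map_add, mul_add, add_mul]
      abel
    | smul c u _ hu =>
      have : (c • u) * v - v * (c • u) = c • (u * v - v * u) := by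
        rw [Matrix.mul_smul, Matrix.smul_mul, smul_sub]
      rw [this, map_smul, hu, map_smul, Matrix.mul_smul, Matrix.smul_mul, smul_sub]
  set B : Matrix (Fin d) (Fin d) ℂ := Matrix.of fun i j => (x i * x j).trace with hB
  set bb : Matrix (Fin d) (Fin d) ℂ := Matrix.of fun i j => (r (x i) * r (x j)).trace with hbb
  have hBdet : IsUnit B.det := by
    rw [isUnit_iff_ne_zero]
    intro h0
    obtain ⟨v, hv, hv2⟩ := Matrix.exists_mulVec_eq_zero_iff.2 h0
    have h1 : ∑ j, v j • x j = 0 := by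
      apply nondeg _ (Submodule.sum_mem _ fun j _ => Submodule.smul_mem _ _
        (Submodule.subset_span ⟨j, rfl⟩))
      intro w hw
      induction hw using Submodule.span_induction with
      | mem w hw =>
        obtain ⟨i, rfl⟩ := hw
        have h2 := congrFun hv2 i
        rw [Matrix.mulVec, dotProduct, Pi.zero_apply] at h2
        rw [Finset.sum_mul, Matrix.trace_sum, ← h2]
        refine Finset.sum_congr rfl fun j _ => ?_
        rw [Matrix.smul_mul, Matrix.trace_smul, smul_eq_mul, hB, Matrix.of_apply,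
          Matrix.trace_mul_comm, mul_comm]
      | zero => rw [mul_zero, Matrix.trace_zero]
      | add v w _ _ hv hw => rw [mul_add, Matrix.trace_add, hv, hw, add_zero]
      | smul c v _ hv => rw [Matrix.mul_smul, Matrix.trace_smul, hv, smul_zero]
    apply hv
    funext j
    exact (Fintype.linearIndependent_iff.1 hx) v h1 j
  let b : Basis (Fin d) ℂ U := Basis.span hx
  have hb : ∀ i, ((b i : U) : Matrix n n ℂ) = x i := fun i =>
    congrArg Subtype.val (Basis.span_apply hx i)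
  let T : U →ₗ[ℂ] U := Matrix.toLinAlgEquiv b (B⁻¹ * bb)
  have hTnil : IsNilpotent T := hnil.map (Matrix.toLinAlgEquiv b)
  have hTb : ∀ j, (T (b j) : Matrix n n ℂ) = ∑ i, (B⁻¹ * bb) i j • x i := by
    intro j
    have h1 : T (b j) = ∑ i, (B⁻¹ * bb) i j • b i := Matrix.toLinAlgEquiv_self b _ j
    rw [h1, Submodule.coe_sum]
    refine Finset.sum_congr rfl fun i _ => ?_
    rw [Submodule.coe_smul, hb]
  have hBsymm : ∀ i j, B i j = B j i := fun i j => Matrix.trace_mul_comm _ _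
  have hkey1 : ∀ j l, ((T (b j)).1 * x l).trace = (r (x j) * r (x l)).trace := by
    intro j l
    rw [hTb j, Finset.sum_mul, Matrix.trace_sum]
    have h1 : ∀ i, (((B⁻¹ * bb) i j • x i) * x l).trace = B l i * (B⁻¹ * bb) i j := by
      intro i
      rw [Matrix.smul_mul, Matrix.trace_smul, smul_eq_mul, hBsymm l i, mul_comm]
      rfl
    rw [Finset.sum_congr rfl fun i _ => h1 i, ← Matrix.mul_apply, ← Matrix.mul_assoc,
      Matrix.mul_nonsing_inv B hBdet, Matrix.one_mul]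
    exact Matrix.trace_mul_comm _ _
  have hkey : ∀ u v : U, ((T u).1 * v.1).trace = (r u.1 * r v.1).trace := by
    intro u v
    let f : U →ₗ[ℂ] U →ₗ[ℂ] ℂ := LinearMap.mk₂ ℂ (fun u v => ((T u).1 * v.1).trace)
      (fun u1 u2 v => by simp [add_mul]) (fun c u v => by simp)
      (fun u v1 v2 => by simp [mul_add]) (fun c u v => by simp)
    let g : U →ₗ[ℂ] U →ₗ[ℂ] ℂ := LinearMap.mk₂ ℂ (fun u v => (r u.1 * r v.1).trace)
      (fun u1 u2 v => by simp [add_mul]) (fun c u v => by simp)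
      (fun u v1 v2 => by simp [mul_add]) (fun c u v => by simp)
    have hfg : f = g := by
      refine b.ext fun j => b.ext fun l => ?_
      change ((T (b j)).1 * (b l).1).trace = (r (b j).1 * r (b l).1).trace
      rw [hb l, hb j]
      exact hkey1 j l
    exact congrArg (fun h : U →ₗ[ℂ] U →ₗ[ℂ] ℂ => h u v) hfg
  have hinv : ∀ {m : Type} [Fintype m] (a b c : Matrix m m ℂ),
      ((a * b - b * a) * c).trace = (a * (b * c - c * b)).trace := by
    intro m _ a b c
    rw [sub_mul, mul_sub, Matrix.trace_sub, Matrix.trace_sub, ← mul_assoc, ← mul_assoc,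
      Matrix.trace_mul_comm (b * a) c, Matrix.trace_mul_comm (a * c) b]
    congr 1
    rw [← mul_assoc, Matrix.trace_mul_comm (c * b) a, ← mul_assoc, Matrix.trace_mul_comm b (a * c)]
  have hT : ∀ u v : U, ((T ⟨u.1 * v.1 - v.1 * u.1, hlie _ u.2 _ v.2⟩ : U) : Matrix n n ℂ) =
      (T u).1 * v.1 - v.1 * (T u).1 := by
    intro u v
    rw [← sub_eq_zero]
    apply nondeg _ (Submodule.sub_mem _ (T _).2 (hlie _ (T u).2 _ v.2))
    intro w hw
    rw [sub_mul, Matrix.trace_sub, hinv,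
      hkey ⟨u.1 * v.1 - v.1 * u.1, hlie _ u.2 _ v.2⟩ ⟨w, hw⟩,
      hkey u ⟨v.1 * w - w * v.1, hlie _ v.2 _ hw⟩, hr2 _ u.2 _ v.2, hr2 _ v.2 _ hw, hinv, sub_self]
  have hT0 : T = 0 := cent_zero U hlie noab T hT hTnil
  have htr : ∀ u ∈ U, ∀ v ∈ U, (r u * r v).trace = 0 := by
    intro u hu v hv
    have := hkey ⟨u, hu⟩ ⟨v, hv⟩
    rw [hT0] at this
    rw [← this]
    simp
  have hfin := cartan_zero_mat N (U.map r) ?_ ?_ ?_
  · intro i
    exact hfin _ ⟨x i, Submodule.subset_span ⟨i, rfl⟩, rfl⟩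
  · rintro _ ⟨u, hu, rfl⟩ _ ⟨v, hv, rfl⟩
    exact ⟨u * v - v * u, hlie _ hu _ hv, hr2 _ hu _ hv⟩
  · rintro _ ⟨u, hu, rfl⟩ _ ⟨v, hv, rfl⟩
    exact htr u hu v hv
  · rintro _ ⟨u, hu, rfl⟩
    have h1 := perf hu
    have h2 : Submodule.span ℂ {y | ∃ u ∈ U, ∃ v ∈ U, y = u * v - v * u} ≤
        (Submodule.span ℂ {y | ∃ u ∈ U.map r, ∃ v ∈ U.map r, y = u * v - v * u}).comap r := by
      rw [Submodule.span_le]
      rintro y ⟨a, ha, c, hc, rfl⟩
      exact Submodule.subset_span ⟨r a, ⟨a, ha, rfl⟩, r c, ⟨c, hc, rfl⟩, hr2 _ ha _ hc⟩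
    exact h2 h1

end Pool.Agent.E8helper87.TW
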