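import Pool.Agent.E8helper1.TW.Stm
import Pool.Agent.E8helper87.TW.Nil1

set_option autoImplicit false

namespace Pool.Agent.E8helper87.TW

/-- Piece NIL. -/
theorem t_NIL : Pool.Agent.E8helper1.TW.S_NIL := fun _ _ _ d x hx hU N _ _ r hr hnil =>
  nil_main d x hx hU.lie hU.nondeg hU.perf hU.noab N r hr hnil

end Pool.Agent.E8helper87.TW
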